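import Pool.Agent.J6H54.CG.Stm

/-! # CG-10: quasi-additivity of the length -/

set_option autoImplicit false

namespace Pool.Agent.J6H8.CG10

open Pool.Agent.J6H54.CG

theorem m10 (h2 : S_metric) (h7 : S_window) (h8 : S_cut) (h9 : S_low) : S_key := by
  intro k T R hT hB
  obtain ⟨P, hP⟩ := h7 k T R hT hB
  obtain ⟨C, hC⟩ := h2 k T R hT hB
  have hk := hT.two_le
  have hk0 : (0 : ℚ) < k := kpos hk
  have hkne : (k : ℚ) ≠ 0 := kne hk
  set L : ℕ := P * k ^ R + 1 with hL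
  have hLk : (P : ℚ) * (k : ℚ) ^ R + 1 ≤ (k : ℚ) ^ L := by
    have h : L ≤ k ^ L := (Nat.lt_pow_self (by omega)).le
    have h' : ((L : ℕ) : ℚ) ≤ ((k ^ L : ℕ) : ℚ) := by exact_mod_cast h
    rw [hL] at h'
    push_cast at h'
    rw [hL]
    exact h'
  refine ⟨2 * R * R * P + 2 * (C * (R + L + 1)), fun n1 n2 u1 u2 hu1 hu2 => ?_⟩
  set x : ℚ := ((u1 + k ^ n1 * u2 : ℕ) : ℚ) with hx
  have hxe : x = (u1 : ℚ) + (k : ℚ) ^ n1 * u2 := by rw [hx]; push_cast; ring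
  obtain ⟨w, hw, hval⟩ := exists_geo' hT (p := (x, ((n1 + n2 : ℕ) : ℤ))) (ka_nat _)
  have hlen : len k T (x, ((n1 + n2 : ℕ) : ℤ)) = w.length := by rw [← hval]; exact hw.2
  have hht : ht w = (n1 : ℤ) + n2 := by
    rw [← val_snd (k := k), hval]; push_cast; ring
  obtain ⟨hsum, hka, hkad, hcut⟩ := h8 k T R hT hB (n1 : ℤ) 0 w hw.1
  have hlow := h9 k T R P hk hB (n1 : ℤ) 0 w hw.1 (fun j => hP j 0 w hw)
  have hvis : vis (n1 : ℤ) R 0 w ≤ P := hP _ _ _ hw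
  set xl : ℚ := lowX k (n1 : ℤ) 0 w with hxl
  set xh : ℚ := highX k (n1 : ℤ) 0 w with hxh
  have e1 : min (0 : ℤ) (n1 : ℤ) = 0 := by omega
  have e2 : max (0 : ℤ) (n1 : ℤ) = n1 := by omega
  have e3 : min (0 + ht w) (n1 : ℤ) = n1 := by rw [hht]; omega
  have e4 : max (0 + ht w) (n1 : ℤ) = n1 + n2 := by rw [hht]; omega
  rw [e1, e2, e3, e4, sub_zero, neg_zero, zpow_zero, one_mul,
    show (n1 : ℤ) + n2 - n1 = n2 by ring] at hcut
  rw [zpow_zero, one_mul, hval] at hsum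
  simp only at hsum
  -- the difference
  set c : ℚ := (k : ℚ) ^ (-(n1 : ℤ)) with hc
  have hc0 : 0 < c := zpow_pos hk0 _
  have hcn : (k : ℚ) ^ (n1 : ℤ) * c = 1 := by
    rw [hc, ← zpow_add₀ hkne]; simp
  have hcn' : (k : ℚ) ^ n1 * c = 1 := by rw [← zpow_natCast]; exact hcn
  set y : ℚ := c * (xl - u1) with hy
  have hy2 : y = u2 - c * xh := by
    have h : xl = (u1 : ℚ) + (k : ℚ) ^ n1 * u2 - xh := by rw [← hxe]; linarith
    rw [hy, h]
    linear_combination (u2 : ℚ) * hcn'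
  have hykad : Kad k R y := by
    rw [hy2]
    refine kad_sub (kad_mono hk (by positivity) (kad_nat u2)) ?_
    have h := kad_shift hk hkad (-(n1 : ℤ))
    rw [show (R : ℤ) - n1 - -n1 = R by ring] at h
    exact h
  have hyabs : |y| ≤ (k : ℚ) ^ L := by
    have h1 : |xl| ≤ P * (k : ℚ) ^ ((n1 : ℤ) + R) := hlow
    have h2 : (u1 : ℚ) ≤ (k : ℚ) ^ n1 := by exact_mod_cast hu1.le
    have h3 : |xl - u1| ≤ P * (k : ℚ) ^ ((n1 : ℤ) + R) + (k : ℚ) ^ n1 := by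
      have h4 := abs_sub xl (u1 : ℚ)
      have h5 : |(u1 : ℚ)| = u1 := abs_of_nonneg (by positivity)
      rw [h5] at h4
      linarith
    rw [hy, abs_mul, abs_of_pos hc0]
    calc c * |xl - u1| ≤ c * (P * (k : ℚ) ^ ((n1 : ℤ) + R) + (k : ℚ) ^ n1) :=
          mul_le_mul_of_nonneg_left h3 hc0.le
      _ = P * (k : ℚ) ^ R + 1 := by
          rw [zpow_add₀ hkne, zpow_natCast (k : ℚ) R]
          linear_combination (P * (k : ℚ) ^ R) * hcn + hcn'
      _ ≤ (k : ℚ) ^ L := hLk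
  have hy1 : len k T (y, 0) ≤ C * (R + L + 1) := hC R L y hykad hyabs
  have hy3 : len k T (-y, 0) ≤ C * (R + L + 1) :=
    hC R L (-y) (kad_neg hykad) (by rw [abs_neg]; exact hyabs)
  have hyka : KA k y := ka_of_kad hk hykad
  have hhka : KA k (c * xh) := ka_shift hk (ka_of_kad hk hkad) _
  have t1 : len k T ((u1 : ℚ), (n1 : ℤ)) ≤ len k T (xl, (n1 : ℤ)) + len k T (-y, 0) := by
    have h := len_add hT (x := xl) (y := -y) (m := (n1 : ℤ)) (n := 0) hka (ka_neg hyka)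
    have h3 : xl + (k : ℚ) ^ (n1 : ℤ) * -y = u1 := by
      rw [hy]
      linear_combination (-(xl - u1)) * hcn
    rw [h3, add_zero] at h
    exact h
  have t2 : len k T ((u2 : ℚ), (n2 : ℤ)) ≤ len k T (y, 0) + len k T (c * xh, (n2 : ℤ)) := by
    have h := len_add hT (x := y) (y := c * xh) (m := 0) (n := (n2 : ℤ)) hyka hhka
    have h3 : y + (k : ℚ) ^ (0 : ℤ) * (c * xh) = u2 := by
      rw [zpow_zero, one_mul, hy2]; ring
    rw [h3, zero_add] at h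
    exact h
  rw [hlen]
  have hv : 2 * R * R * vis (n1 : ℤ) R 0 w ≤ 2 * R * R * P := Nat.mul_le_mul_left _ hvis
  omega

end Pool.Agent.J6H8.CG10
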